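import Pool.Agent.H73.PHS.Stmts

/-!
# Board PHS, row OPN: open-closed principle
-/

set_option autoImplicit false

open Set Filter Topology MeasureTheory Metric

namespace Pool.PHS

private lemma opn_jac {n : ℕ} (F : Cn n → Cn n) (w z : Cn n) :
    jac (fun y => F y - w) z = jac F z := by
  unfold jac
  rw [fderiv_sub_const]

private lemma opn_near (h1 : DEGStmt) (h2 : POSStmt) (h3 : BMPStmt) {n : ℕ} {U : Set (Cn n)}
    {F : Cn n → Cn n} (hU : IsOpen U) (hF : DifferentiableOn ℂ F U) (hN : NonDeg F U)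
    {w w1 w2 : Cn n} {ρ : ℝ} (hP : IsCompact {z | z ∈ U ∧ ‖F z - w‖ ≤ ρ})
    (hw1 : ‖w1 - w‖ < ρ / 3) (hw2 : ‖w2 - w‖ < ρ / 3) (hmem : w1 ∈ F '' U)
    {s : ℝ} (hs : 0 < s) (hs3 : s ≤ ρ / 3) :
    ∃ z ∈ {z | z ∈ U ∧ ‖F z - w‖ ≤ ρ}, ‖F z - w2‖ < s := by
  obtain ⟨z₀, hz₀, hFz₀⟩ := hmem
  obtain ⟨ψ, hψc, hψ0, hψpos, hψz⟩ := h3 n 0 s hs
  have key : ∀ t ∈ Icc (0 : ℝ) 1, ∀ z ∈ U, ψ ((F z - w1) + t • (w1 - w2)) ≠ 0 →
      z ∈ {z | z ∈ U ∧ ‖F z - w‖ ≤ ρ} := by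
    intro t ht z hz hne
    refine ⟨hz, ?_⟩
    have hlt : ‖(F z - w1) + t • (w1 - w2)‖ < s := by
      by_contra hcon
      apply hne
      apply hψz
      rw [sub_zero]
      exact not_lt.mp hcon
    have hc : ‖(1 - t) • (w1 - w) + t • (w2 - w)‖ ≤ ρ / 3 := by
      have hconv := convex_closedBall (0 : Cn n) (ρ / 3)
      have hm := hconv (x := w1 - w) (by rw [mem_closedBall_zero_iff]; exact hw1.le)
        (y := w2 - w) (by rw [mem_closedBall_zero_iff]; exact hw2.le)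
        (a := 1 - t) (b := t) (by linarith [ht.2]) ht.1 (by ring)
      rw [mem_closedBall_zero_iff] at hm
      exact hm
    have hsplit : F z - w = ((F z - w1) + t • (w1 - w2)) + ((1 - t) • (w1 - w) + t • (w2 - w)) := by
      module
    rw [hsplit]
    have := norm_add_le ((F z - w1) + t • (w1 - w2)) ((1 - t) • (w1 - w) + t • (w2 - w))
    have hρ : 0 < ρ := by linarith
    linarith
  have hdeg := h1 n (fun z => F z - w1) (fun _ => w1 - w2) ψ U {z | z ∈ U ∧ ‖F z - w‖ ≤ ρ} hU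
    (hF.sub_const w1) (differentiableOn_const _) hψc hψ0 hP (fun z hz => hz.1) key
  have hpos := h2 n (fun z => F z - w1) ψ U {z | z ∈ U ∧ ‖F z - w‖ ≤ ρ} hU
    (hF.sub_const w1) hψc hψ0 hP (fun z hz => hz.1)
    (fun z hz hne => key 0 ⟨le_rfl, zero_le_one⟩ z hz (by rw [zero_smul, add_zero]; exact hne))
    z₀ hz₀ (by
      apply hψpos
      rw [hFz₀, sub_self, sub_self, norm_zero]
      exact hs)
    (by
      intro O hO hzO hOU
      obtain ⟨z, hz, hne⟩ := hN O hO hOU ⟨z₀, hzO⟩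
      refine ⟨z, hz, ?_⟩
      rw [opn_jac]
      exact hne)
  rw [hdeg] at hpos
  by_contra hcon
  push Not at hcon
  have hzero : ∫ z in U, ψ ((F z - w1) + (w1 - w2)) *
      Complex.normSq (jac (fun y => (F y - w1) + (w1 - w2)) z) = 0 := by
    have : ∫ z in U, ψ ((F z - w1) + (w1 - w2)) *
        Complex.normSq (jac (fun y => (F y - w1) + (w1 - w2)) z) = ∫ z in U, (0 : ℝ) := by
      apply setIntegral_congr_fun hU.measurableSet
      intro z hz
      have hψ : ψ ((F z - w1) + (w1 - w2)) = 0 := by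
        by_contra hne
        have hzP := key 1 ⟨zero_le_one, le_rfl⟩ z hz (by rw [one_smul]; exact hne)
        have hle := hcon z hzP
        apply hne
        apply hψz
        rw [sub_zero]
        have : (F z - w1) + (w1 - w2) = F z - w2 := by abel
        rw [this]
        exact hle
      simp only [hψ, zero_mul]
    rw [this, integral_zero]
  rw [hzero] at hpos
  exact lt_irrefl _ hpos

private lemma opn_step (h1 : DEGStmt) (h2 : POSStmt) (h3 : BMPStmt) {n : ℕ} {U : Set (Cn n)}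
    {F : Cn n → Cn n} (hU : IsOpen U) (hF : DifferentiableOn ℂ F U) (hN : NonDeg F U)
    {w w1 w2 : Cn n} {ρ : ℝ} (hP : IsCompact {z | z ∈ U ∧ ‖F z - w‖ ≤ ρ})
    (hw1 : ‖w1 - w‖ < ρ / 3) (hw2 : ‖w2 - w‖ < ρ / 3) (hmem : w1 ∈ F '' U) :
    w2 ∈ F '' U := by
  have hρ : 0 < ρ := by
    have := norm_nonneg (w1 - w)
    linarith
  have hcomp : IsCompact (F '' {z | z ∈ U ∧ ‖F z - w‖ ≤ ρ}) :=
    hP.image_of_continuousOn (hF.continuousOn.mono (fun z hz => hz.1))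
  have hcl : w2 ∈ closure (F '' {z | z ∈ U ∧ ‖F z - w‖ ≤ ρ}) := by
    rw [Metric.mem_closure_iff]
    intro ε hε
    obtain ⟨z, hz, hlt⟩ := opn_near h1 h2 h3 hU hF hN hP hw1 hw2 hmem
      (s := min ε (ρ / 3)) (lt_min hε (by linarith)) (min_le_right _ _)
    refine ⟨F z, ⟨z, hz, rfl⟩, ?_⟩
    rw [dist_comm, dist_eq_norm]
    exact lt_of_lt_of_le hlt (min_le_left _ _)
  rw [hcomp.isClosed.closure_eq] at hcl
  obtain ⟨z, hz, hzw⟩ := hcl
  exact ⟨z, hz.1, hzw⟩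

theorem OPN_thm (h1 : DEGStmt) (h2 : POSStmt) (h3 : BMPStmt) : OPNStmt := by
  intro n U S F hU hF hN hS hP hne
  choose! ρ hρ hPc using hP
  let A : Set (Cn n) := ⋃ w ∈ {w | w ∈ S ∧ (ball w (ρ w / 3) ∩ F '' U).Nonempty}, ball w (ρ w / 3)
  let B : Set (Cn n) := ⋃ w ∈ {w | w ∈ S ∧ ¬ (ball w (ρ w / 3) ∩ F '' U).Nonempty},
    ball w (ρ w / 3)
  have hA : IsOpen A := isOpen_biUnion (fun w _ => isOpen_ball)
  have hB : IsOpen B := isOpen_biUnion (fun w _ => isOpen_ball)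
  have hAF : A ⊆ F '' U := by
    intro x hx
    obtain ⟨w, hw, hxw⟩ := mem_iUnion₂.mp hx
    obtain ⟨hwS, w1, hw1, hmem⟩ := hw
    rw [mem_ball, dist_eq_norm] at hxw hw1
    exact opn_step h1 h2 h3 hU hF hN (hPc w hwS) hw1 hxw hmem
  have hBF : ∀ x ∈ B, x ∉ F '' U := by
    intro x hx hmem
    obtain ⟨w, hw, hxw⟩ := mem_iUnion₂.mp hx
    exact hw.2 ⟨x, hxw, hmem⟩
  have hdisj : Disjoint A B := by
    rw [Set.disjoint_left]
    intro x hxA hxB
    exact hBF x hxB (hAF hxA)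
  have hcover : S ⊆ A ∪ B := by
    intro x hx
    have hxb : x ∈ ball x (ρ x / 3) := mem_ball_self (by linarith [hρ x hx])
    by_cases h : (ball x (ρ x / 3) ∩ F '' U).Nonempty
    · exact Or.inl (mem_iUnion₂.mpr ⟨x, ⟨hx, h⟩, hxb⟩)
    · exact Or.inr (mem_iUnion₂.mpr ⟨x, ⟨hx, h⟩, hxb⟩)
  have hSA : (S ∩ A).Nonempty := by
    obtain ⟨x, hx, hxF⟩ := hne
    have hxb : x ∈ ball x (ρ x / 3) := mem_ball_self (by linarith [hρ x hx])
    exact ⟨x, hx, mem_iUnion₂.mpr ⟨x, ⟨hx, x, hxb, hxF⟩, hxb⟩⟩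
  exact (hS.subset_left_of_subset_union hA hB hdisj hcover hSA).trans hAF

end Pool.PHS
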